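import Pool.Agent.Work.MP_d018b2_nt.UTuple

open Finset

namespace Pool.Agent.Work.MP_d018b2_nt.Parked.AlmostAllTuples

/-- Full level of distribution for rough divisors of `q r₁ + 1, …, q r_l + 1`, for all but
`C |R| ^ (l - 1)` of the `l`-tuples from any set `R ⊆ [1, (log x) ^ A]`. -/
theorem result (l : ℕ) (η ε : ℝ) (hη : 0 < η) (hε : 0 < ε) :
    ∃ C : ℝ, ∀ A : ℕ, ∃ X : ℝ, ∀ x : ℝ, X ≤ x → ∀ R : Finset ℕ,
      (∀ r ∈ R, 1 ≤ r ∧ (r : ℝ) ≤ Real.log x ^ A) →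
      ∀ φ : Fin l → ℕ → ℕ → ℂ, (∀ j r m, ‖φ j r m‖ ≤ 1) →
      (∀ j r m, φ j r m ≠ 0 → ∀ p : ℕ, p.Prime → p ∣ m → x ^ η < p) →
      ((((Fintype.piFinset fun _ : Fin l => R).filter fun r : Fin l → ℕ => ε * x <
        ‖∑ m ∈ Fintype.piFinset fun j : Fin l => Icc 1 ⌈2 * (r j : ℝ) * x⌉₊,
          (∏ j, φ j (r j) (m j)) *
          (((((range ⌈2 * x⌉₊).filter fun q : ℕ => x ≤ (q : ℝ) ∧ (q : ℝ) < 2 * x ∧
              ∀ j, m j ∣ q * r j + 1).card : ℕ) : ℂ)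
            - (x : ℂ) / ∏ j, (m j : ℂ))‖).card : ℕ) : ℝ) ≤ C * (R.card : ℝ) ^ (l - 1) := by
  obtain ⟨C, h⟩ := Pool.Agent.Work.MP_d018b2_nt.U.tupleU l hη hε
  refine ⟨C, fun A => ?_⟩
  obtain ⟨X, h⟩ := Filter.eventually_atTop.1 (h A)
  refine ⟨X, fun x hx R hR φ p1 p2 => ?_⟩
  have := h x hx R φ fun j r hr => ⟨(hR r hr).1, (hR r hr).2, p1 j r, p2 j r⟩
  simp only [← Pool.Agent.Work.MP_d018b2_nt.U.tuple_eq] at this
  simpa only [Pool.Agent.Work.MP_d018b2_nt.U.II, filter_filter, and_assoc] using this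

end Pool.Agent.Work.MP_d018b2_nt.Parked.AlmostAllTuples
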