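import Pool.Agent.Work.MP_678620_nt.TBFin

set_option autoImplicit false

open Classical in
theorem Pool.Agent.Work.MP_d018b2_nt.Parked.AlmostPrimePairs.result :
    ∀ (A : ℕ) (c : ℝ), 0 < c → ∃ k₀ : ℕ, ∀ k₁ k₂ : ℕ, k₀ ≤ k₁ → k₀ ≤ k₂ →
      ∀ ε : ℝ, 0 < ε → ∃ X : ℝ, ∀ x : ℝ, X ≤ x →
        ∀ r₁ r₂ : ℕ, r₁ ≠ r₂ → 1 ≤ r₁ → 1 ≤ r₂ →
          (r₁ : ℝ) ≤ Real.log x ^ A → (r₂ : ℝ) ≤ Real.log x ^ A →
        ∀ E : Finset ℕ,
          (∀ p ∈ E, p.Prime ∧ Real.exp (Real.log x ^ c) ≤ (p : ℝ) ∧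
            (p : ℝ) ≤ Real.exp (Real.log x ^ (1 / 4 : ℝ))) →
          1 / 2 ≤ ∑ p ∈ E, (p : ℝ)⁻¹ →
        |(((Finset.range ⌈2 * x⌉₊).filter
              (fun q : ℕ => x ≤ (q : ℝ) ∧ (q : ℝ) < 2 * x ∧
                (∃ p : ℕ, p.Prime ∧ ∃ S ∈ E.powersetCard k₁, q * r₁ + 1 = p * ∏ s ∈ S, s) ∧
                (∃ p : ℕ, p.Prime ∧ ∃ S ∈ E.powersetCard k₂, q * r₂ + 1 = p * ∏ s ∈ S, s))).card : ℝ)
          - x / (Real.log x) ^ 2 *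
              ((∑ S ∈ E.powersetCard k₁, ∏ s ∈ S, (s : ℝ)⁻¹) *
                ∑ S ∈ E.powersetCard k₂, ∏ s ∈ S, (s : ℝ)⁻¹) *
              ∏' p : Nat.Primes,
                ((1 - (((Finset.range (p : ℕ)).filter
                        (fun q : ℕ => (p : ℕ) ∣ (q * r₁ + 1) * (q * r₂ + 1))).card : ℝ) / (p : ℝ))
                  / (1 - 1 / (p : ℝ)) ^ 2)|
        ≤ ε * (x / (Real.log x) ^ 2 *
              ((∑ S ∈ E.powersetCard k₁, ∏ s ∈ S, (s : ℝ)⁻¹) *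
                ∑ S ∈ E.powersetCard k₂, ∏ s ∈ S, (s : ℝ)⁻¹) *
              ∏' p : Nat.Primes,
                ((1 - (((Finset.range (p : ℕ)).filter
                        (fun q : ℕ => (p : ℕ) ∣ (q * r₁ + 1) * (q * r₂ + 1))).card : ℝ) / (p : ℝ))
                  / (1 - 1 / (p : ℝ)) ^ 2)) := by
  intro A c hc
  obtain ⟨k₀, H⟩ := Pool.Agent.Work.MP_678620_nt.TB_two A hc
  refine ⟨k₀, fun k₁ k₂ h1 h2 ε hε => ?_⟩
  obtain ⟨X, H⟩ := H k₁ k₂ h1 h2 ε hε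
  refine ⟨X, fun x hx r₁ r₂ hr p1 p2 q1 q2 E hE big => ?_⟩
  have T := H x hx r₁ r₂ hr p1 p2 q1 q2 E hE big
  have e1 : ∀ p : ℕ, Pool.Agent.Work.MP_678620_nt.om r₁ r₂ 1 1 p = ((Finset.range p).filter
      (fun q : ℕ => p ∣ (q * r₁ + 1) * (q * r₂ + 1))).card := fun p => by
    unfold Pool.Agent.Work.MP_678620_nt.om
    congr 1
    refine Finset.filter_congr fun q _ => ?_
    rw [← Int.natCast_dvd_natCast, mul_comm q, mul_comm q]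
    push_cast; rfl
  have e2 : ∀ k r q : ℕ, Pool.Agent.Work.MP_678620_nt.PE E k (r * q + 1) ↔
      ∃ p : ℕ, p.Prime ∧ ∃ S ∈ E.powersetCard k, q * r + 1 = p * ∏ s ∈ S, s := fun k r q => by
    refine exists_congr fun p => and_congr_right fun _ => exists_congr fun S =>
      and_congr_right fun _ => ?_
    rw [← Int.natCast_inj, mul_comm q]
    push_cast; rfl
  simp only [Pool.Agent.Work.MP_678620_nt.locF, Pool.Agent.Work.MP_678620_nt.ek,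
    Pool.Agent.Work.MP_678620_nt.esym, e1, e2] at T
  convert T
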