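import Pool.Agent.Work.MP_d018b2_nt.UTuple

open Finset

namespace Pool.Agent.Work.MP_d018b2_nt.Parked.UniformLevelTwo

/-- Full level of distribution for rough divisors of `q r₁ + 1` and `q r₂ + 1`, uniformly over
all distinct `r₁, r₂ ≤ (log x) ^ A`. -/
theorem result (A : ℕ) (η ε : ℝ) (hη : 0 < η) (hε : 0 < ε) :
    ∃ X : ℝ, ∀ x : ℝ, X ≤ x → ∀ r₁ r₂ : ℕ, r₁ ≠ r₂ →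
      1 ≤ r₁ → (r₁ : ℝ) ≤ Real.log x ^ A → 1 ≤ r₂ → (r₂ : ℝ) ≤ Real.log x ^ A →
      ∀ φ₁ φ₂ : ℕ → ℂ, (∀ m, ‖φ₁ m‖ ≤ 1) → (∀ m, ‖φ₂ m‖ ≤ 1) →
      (∀ m, φ₁ m ≠ 0 → ∀ p : ℕ, p.Prime → p ∣ m → x ^ η < p) →
      (∀ m, φ₂ m ≠ 0 → ∀ p : ℕ, p.Prime → p ∣ m → x ^ η < p) →
      ‖∑ m₁ ∈ Icc 1 ⌈2 * r₁ * x⌉₊, ∑ m₂ ∈ Icc 1 ⌈2 * r₂ * x⌉₊, φ₁ m₁ * φ₂ m₂ *
        (((((range ⌈2 * x⌉₊).filter fun q : ℕ => x ≤ (q : ℝ) ∧ (q : ℝ) < 2 * x ∧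
            m₁ ∣ q * r₁ + 1 ∧ m₂ ∣ q * r₂ + 1).card : ℕ) : ℂ)
          - (x : ℂ) / ((m₁ : ℂ) * (m₂ : ℂ)))‖ ≤ ε * x := by
  obtain ⟨X, h⟩ := Filter.eventually_atTop.1 (Pool.Agent.Work.MP_d018b2_nt.U.pairU hη A hε)
  refine ⟨X, fun x hx r₁ r₂ hr a1 a2 b1 b2 φ₁ φ₂ p1 p2 p3 p4 => ?_⟩
  have := h x hx φ₁ r₁ φ₂ r₂ ⟨a1, a2, p1, p3⟩ ⟨b1, b2, p2, p4⟩ hr
  rw [← Pool.Agent.Work.MP_d018b2_nt.U.pair_eq] at this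
  simpa only [Pool.Agent.Work.MP_d018b2_nt.U.II, filter_filter, and_assoc] using this

end Pool.Agent.Work.MP_d018b2_nt.Parked.UniformLevelTwo
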