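import Pool.Agent.Work.MP_d018b2_nt.Uniform

set_option autoImplicit false

theorem Pool.Agent.Work.MP_d018b2_nt.Parked.UniformUpper.result :
    ∀ ℓ : ℕ, 2 ≤ ℓ → ∃ η : ℝ, 0 < η ∧ ∃ X : ℝ, ∀ x : ℝ, X ≤ x →
      ∀ r : Fin ℓ → ℕ, Function.Injective r →
        (∀ j, 1 ≤ r j ∧ (r j : ℝ) ≤ x ^ η) →
        (((Finset.range ⌈2 * x⌉₊).filter
              (fun q : ℕ => x ≤ (q : ℝ) ∧ (q : ℝ) < 2 * x ∧ ∀ j, (q * r j + 1).Prime)).card : ℝ)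
          ≤ (1 - 1 / (10000 * (ℓ : ℝ))) * (2 ^ ℓ * (ℓ.factorial : ℝ)) *
            (x / (Real.log x) ^ ℓ *
              ∏' p : Nat.Primes,
                ((1 - (((Finset.range (p : ℕ)).filter
                        (fun q : ℕ => (p : ℕ) ∣ ∏ j, (q * r j + 1))).card : ℝ) / (p : ℝ))
                  / (1 - 1 / (p : ℝ)) ^ ℓ)) := by
  intro ℓ hℓ
  obtain ⟨m, rfl⟩ : ∃ m, ℓ = m + 1 := ⟨ℓ - 1, by omega⟩
  obtain ⟨η, hη, X, h⟩ := Pool.Agent.Work.MP_d018b2_nt.uniform_upper m (by omega)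
  refine ⟨η, hη, X, fun x hx r hr hrx => ?_⟩
  have := h x hx r hr hrx
  simp only [Pool.Agent.Work.MP_d018b2_nt.omega_prod_lin] at this
  rw [Nat.cast_succ]
  exact this
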